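import Mathlib
import Pool.Agent.R34.Ident3

/-!
The contraction distance to a minor-closed class need not be bounded by a function of the
identification distance.

We show that this fails for every minor-closed class which contains all graphs with a vertex that
meets all cycles, and does not contain all finite graphs; in particular for planar graphs and for
graphs without `K_t` minor, for every `t ≥ 4`.
-/

set_option autoImplicit false

namespace Pool.Agent.Results.MP_4c2ece_co.ContractionIdentification

open SimpleGraph
open Pool.Agent.R34.Ident Pool.Agent.TH507.Host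

theorem result :
    -- for each minor-closed class containing all apex-forests but not all finite graphs
    (∀ C : GraphClass, MinorClosed C →
      (∃ (R : Type) (_ : Finite R) (F : SimpleGraph R), ¬ C R F) →
      (∀ (V : Type) [Finite V] (G : SimpleGraph V), ApexForest G → C V G) →
      (∃ c : ℕ, ∀ k : ℕ, ∃ (V : Type) (_ : Fintype V) (G : SimpleGraph V), G.Connected ∧
        IdLE C G c ∧ idn C G ≤ c ∧ (∃ j, Reaches C G j) ∧ k < ec C G) ∧ ¬ Bounded C) ∧
    -- planar graphs
    (MinorClosed (fun _ G => Planar G) ∧ ¬ Bounded (fun _ G => Planar G)) ∧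
    -- graphs without `K_t` minor
    (∀ t : ℕ, 4 ≤ t → MinorClosed (fun _ G => ¬ IsMinor (⊤ : SimpleGraph (Fin t)) G) ∧
      ¬ Bounded (fun _ G => ¬ IsMinor (⊤ : SimpleGraph (Fin t)) G)) := by
  refine ⟨?_, ⟨planar_closed, ?_⟩, fun t ht => ⟨minorClosed_excl _, ?_⟩⟩
  · intro C h1 h2 h3
    refine ⟨?_, not_bounded C h1 h2 h3⟩
    obtain ⟨c, hc⟩ := main C h1 h2 h3
    refine ⟨c, fun k => ?_⟩
    obtain ⟨V, hV, G, hG, hid, hex, hlow⟩ := hc k
    exact ⟨V, hV, G, hG, hid, Nat.sInf_le hid, hex, hlow _ (Nat.sInf_mem hex)⟩
  · refine not_bounded _ planar_closed ?_ (fun V _ G hG => apex_planar hG)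
    exact ⟨Fin 5, inferInstance, ⊤, fun h => h.1 (minor_refl _)⟩
  · refine not_bounded _ (minorClosed_excl _) ?_ (fun V _ G hG => apex_no_kt hG ht)
    exact ⟨Fin t, inferInstance, ⊤, fun h => h (minor_refl _)⟩

end Pool.Agent.Results.MP_4c2ece_co.ContractionIdentification
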